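import Pool.Agent.Q325.Maj.Pol

/-!
MP_1ffe94_lc: majority domination on complete multipartite graphs (sizes of the parts in binary) is
in P; an explicit criterion.
-/

set_option autoImplicit false

namespace Pool.Agent.Results.MP_1ffe94_lc.MajorityInP

open Pool.Agent.NPC Q325.Maj

/-- The yes-instances of MAJ-CMP: a nonempty list `I.1` of positive integers (the sizes of the
parts) and a positive integer `I.2` such that the complete multipartite graph has a majority
dominating function of weight at most `I.2`. All numbers are encoded in binary. -/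
def MajCMP (I : List ℕ × ℕ) : Prop :=
  I.1 ≠ [] ∧ (∀ n ∈ I.1, 1 ≤ n) ∧ 1 ≤ I.2 ∧
    ∃ f : Vert I.1 → ℤ, IsMDF (KG I.1) f ∧ ∑ v, f v ≤ I.2

/-- MAJ-CMP is in P; if it is NP-hard, then every language in NP is in P; and the complete
multipartite graph with parts of the sizes in the nonempty list `l` of positive integers has a
majority dominating function of weight at most `k ≥ 1` if and only if `k ≥ 2`, or the number of
vertices is odd, or the following four conditions hold: the number `a` of the parts with one vertex
is at most half of the number of vertices; `l` is not `1, n` up to order; `l` is not `1, 1, n, n`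
with `n` odd up to order; if all parts have one or three vertices, then `3` divides `a`. -/
theorem result :
    InPP MajCMP ∧ (NPHardP MajCMP → ∀ L, InNP L → InP L) ∧
    ∀ (l : List ℕ) (k : ℕ), l ≠ [] → (∀ n ∈ l, 1 ≤ n) → 1 ≤ k →
      ((∃ f : Vert l → ℤ, IsMDF (KG l) f ∧ ∑ v, f v ≤ k) ↔
        (2 ≤ k ∨ l.sum % 2 = 1 ∨
          (2 * l.count 1 ≤ l.sum ∧ (∀ n, ¬ l.Perm [1, n]) ∧
            (∀ n, n % 2 = 1 → ¬ l.Perm [1, 1, n, n]) ∧
            ((∀ n ∈ l, n = 1 ∨ n = 3) → 3 ∣ l.count 1)))) := by
  have h : ∀ I, MajCMP I ↔ test I = true := by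
    intro I
    unfold MajCMP test
    simp only [Bool.and_eq_true, Bool.not_eq_true', List.isEmpty_eq_false_iff, List.all_eq_true,
      decide_eq_true_eq, Bool.or_eq_true, critb_iff]
    refine and_congr_right fun h1 => and_congr_right fun h2 => and_congr_right fun h3 => ?_
    exact maj_iff h1 h2 h3
  refine ⟨inPP_of poly_test h, fun hh => NPHardP.collapse hh poly_test h, ?_⟩
  intro l k h1 h2 h3
  exact maj_iff h1 h2 h3

end Pool.Agent.Results.MP_1ffe94_lc.MajorityInP
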